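import Pool.Agent.Helper89.SV.Path

/-!
# Commutators which commute with the centralisers of their letters are thin

Let `E` be a normal set of involutions with `(x y)⁴ = 1`, closed under commutators, which satisfies the path law.
Let `a, b ∈ E` and `t = [a, b]`. Suppose that every `e ∈ E` which commutes with `a` or with `b` commutes with `t`.
Then `[t^c, t^d] = 1` for all `c, d ∈ E`.
-/

set_option autoImplicit false

namespace Pool.Agent.Helper89.SV

open Pool.Agent.Helper94.SV.Frame (c2 DLaw MaxLaw canc inv_eq c2_def)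

universe u

variable {G : Type u} [Group G]

theorem cjm {E : Set G} (hE : DLaw E) {g x : G} (hg : g * g = 1) (hx : x ∈ E) : g * x * g ∈ E := by
  have := hE.conj g x hx
  rwa [inv_eq hg] at this

theorem conj_comm {g x y : G} (hg : g * g = 1) (h : Commute x y) : Commute (g * x * g) (g * y * g) := by
  show g * x * g * (g * y * g) = g * y * g * (g * x * g)
  have h1 : g * x * g * (g * y * g) = g * (x * y) * g := by simp only [mul_assoc, canc hg]
  have h2 : g * y * g * (g * x * g) = g * (y * x) * g := by simp only [mul_assoc, canc hg]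
  rw [h1, h2, h.eq]

theorem conj_conj {g x : G} (hg : g * g = 1) : g * (g * x * g) * g = x := by
  simp only [mul_assoc, canc hg, hg, mul_one]

theorem conj_eq_of_comm {g x : G} (hg : g * g = 1) (h : Commute x g) : g * x * g = x := by
  rw [← h.eq, mul_assoc, hg, mul_one]

theorem comm_of_conj_eq {g x : G} (hg : g * g = 1) (h : g * x * g = x) : Commute x g := by
  show x * g = g * x
  have : g * x * g * g = x * g := by rw [h]
  rw [← this, mul_assoc, hg, mul_one]

theorem comm_conj_conj {g x y : G} (hg : g * g = 1) (h : Commute (g * x * g) y) : Commute x (g * y * g) := by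
  have := conj_comm hg h
  rwa [conj_conj hg] at this

theorem c2_comm {x y z : G} (h1 : Commute x z) (h2 : Commute y z) : Commute (c2 x y) z :=
  (h1.mul_left h2).mul_left (h1.mul_left h2)

theorem c2_comm_left {E : Set G} (hE : DLaw E) {x y : G} (hx : x ∈ E) (hy : y ∈ E) : Commute (c2 x y) x := by
  have h1 : c2 x y = x * (y * x * y) := by simp only [c2_def, mul_assoc]
  rw [h1]
  exact (Commute.refl x).mul_left (comm_conj hE hx hy).symm

theorem c2_comm_right {E : Set G} (hE : DLaw E) {x y : G} (hx : x ∈ E) (hy : y ∈ E) : Commute (c2 x y) y := by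
  have h1 : c2 x y = (x * y * x) * y := by simp only [c2_def, mul_assoc]
  rw [h1]
  exact (comm_conj hE hy hx).symm.mul_left (Commute.refl y)

/-- in a path triple `p ~ q` the element `[p, q^w]` commutes with `q` and `w` -/
theorem path_central {E : Set G} (hE : DLaw E) (hP : Path E) {p q w : G} (hp : p ∈ E) (hq : q ∈ E) (hw : w ∈ E)
    (h : Commute p q) : Commute (c2 p (w * q * w)) q ∧ Commute (c2 p (w * q * w)) w := by
  have hpp := hE.inv p hp
  have hqq := hE.inv q hq
  have hww := hE.inv w hw
  have hqw := cjm hE hww hq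
  refine ⟨c2_comm h (comm_conj hE hq hw).symm, ?_⟩
  apply comm_of_conj_eq hww
  have hz : c2 p (w * q * w) * c2 p (w * q * w) = 1 := hE.four p hp _ hqw
  have e1 : w * p * (w * p) = p * w * (p * w) := by
    have h4 := hE.four p hp w hw
    have : c2 p w = (w * p * (w * p)) := by
      have h5 : c2 p w * (w * p * (w * p)) = 1 := by
        simp only [c2_def, mul_assoc, canc hpp, canc hww, hpp]
      calc c2 p w = c2 p w * (c2 p w * (w * p * (w * p))) := by rw [h5, mul_one]
        _ = (c2 p w * c2 p w) * (w * p * (w * p)) := by simp only [mul_assoc]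
        _ = w * p * (w * p) := by rw [h4, one_mul]
    exact this.symm
  have e2 : q * w * (q * w) = w * q * (w * q) := by
    have h4 := hE.four q hq w hw
    have h5 : c2 q w * (w * q * (w * q)) = 1 := by
      simp only [c2_def, mul_assoc, canc hqq, canc hww, hqq]
    calc q * w * (q * w) = c2 q w * (c2 q w * (w * q * (w * q))) := by rw [h5, mul_one]; rfl
      _ = (c2 q w * c2 q w) * (w * q * (w * q)) := by simp only [mul_assoc]
      _ = w * q * (w * q) := by rw [h4, one_mul]
  have hpq := h.eq
  have h4 : (p * q * w) ^ 4 = 1 := hP p hp q hq h w hw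
  have h6 : p * q * w * (p * q * w) * (p * q * w) * (p * q * w) = 1 := by
    simpa only [pow_succ, pow_zero, one_mul] using h4
  have key : c2 p (w * q * w) * (w * c2 p (w * q * w) * w) = 1 := by
    calc c2 p (w * q * w) * (w * c2 p (w * q * w) * w)
        = p * w * q * w * p * w * (q * p) * w * q * w * p * w * q := by
          simp only [c2_def, mul_assoc, canc hww, hww, mul_one]
      _ = p * w * q * (w * p * (w * p)) * (q * w * (q * w)) * p * w * q := by
          rw [← hpq]; simp only [mul_assoc]
      _ = p * w * q * (p * w * (p * w)) * (w * q * (w * q)) * p * w * q := by rw [e1, e2]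
      _ = p * w * (q * p) * w * (p * q) * w * (q * p) * w * q := by
          simp only [mul_assoc, canc hww]
      _ = q * (p * q * w * (p * q * w) * (p * q * w) * (p * q * w)) * q := by
          rw [← hpq]; simp only [mul_assoc]
          rw [← mul_assoc q p, ← hpq]; simp only [mul_assoc, canc hqq]
      _ = 1 := by rw [h6, mul_one, hqq]
  have h7 : w * c2 p (w * q * w) * w = (c2 p (w * q * w))⁻¹ := (inv_eq_of_mul_eq_one_right key).symm
  rw [h7, inv_eq hz]

section

variable {E : Set G} {a b : G}

/-- `t^x` commutes with `a` -/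
theorem hth_one (hE : DLaw E) (hC : ∀ x ∈ E, ∀ y ∈ E, c2 x y ∈ E) (ha : a ∈ E) {t : G}
    (H : ∀ e ∈ E, Commute e a → Commute e t) {x : G} (hx : x ∈ E) : Commute (x * t * x) a := by
  have haa := hE.inv a ha
  have hxx := hE.inv x hx
  have h1 : Commute (c2 x a) t := H _ (hC x hx a ha) (c2_comm_right hE hx ha)
  have h2 : Commute a t := H a ha (Commute.refl a)
  apply comm_of_conj_eq haa
  have h3 : c2 x a * t = t * c2 x a := h1.eq
  have h4 : a * x * a * t * (a * x * a) = x * t * x := by
    have h5 : x * (c2 x a * t) * (a * x * a) = x * (t * c2 x a) * (a * x * a) := by rw [h3]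
    have h6 : x * (c2 x a * t) * (a * x * a) = a * x * a * t * (a * x * a) := by
      simp only [c2_def, mul_assoc, canc hxx]
    have h7 : x * (t * c2 x a) * (a * x * a) = x * t * x := by
      simp only [c2_def, mul_assoc, canc haa, canc hxx]
      rw [haa, mul_one]
    rw [← h6, h5, h7]
  calc a * (x * t * x) * a = a * x * (a * (a * t)) * x * a := by rw [canc haa]; simp only [mul_assoc]
    _ = a * x * (a * (t * a)) * x * a := by rw [h2.eq]
    _ = a * x * a * t * (a * x * a) := by simp only [mul_assoc]
    _ = x * t * x := h4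

/-- the element `z = [t^c, a^d]` -/
theorem hth_two (hE : DLaw E) (hP : Path E) (hC : ∀ x ∈ E, ∀ y ∈ E, c2 x y ∈ E) (ha : a ∈ E) {t : G} (ht : t ∈ E)
    (H : ∀ e ∈ E, Commute e a → Commute e t) {c d : G} (hc : c ∈ E) (hd : d ∈ E) :
    let z := c2 (d * (c * t * c) * d) a
    Commute z a ∧ Commute z c ∧ Commute z d := by
  intro z
  have hcc := hE.inv c hc
  have hdd := hE.inv d hd
  have hy := cjm hE hcc ht
  have had := cjm hE hdd ha
  have h1 : Commute (c * t * c) a := hth_one hE hC ha H hc
  obtain ⟨h2, h3⟩ := path_central hE hP hy ha hd h1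
  have h4 : Commute t (d * a * d) := comm_conj_conj hdd (hth_one hE hC ha H hd)
  obtain ⟨_, h5⟩ := path_central hE hP ht had hc h4
  have hz : z = c2 (c * t * c) (d * a * d) := by
    have : z = d * c2 (c * t * c) (d * a * d) * d := by
      show c2 (d * (c * t * c) * d) a = _
      simp only [c2_def, mul_assoc, hdd, mul_one]
    rw [this, conj_eq_of_comm hdd h3]
  have hz2 : z = c2 t (c * (d * a * d) * c) := by
    have : c * z * c = c2 t (c * (d * a * d) * c) := by
      rw [hz]
      simp only [c2_def, mul_assoc, canc hcc]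
    have h6 : z = c * c2 t (c * (d * a * d) * c) * c := by rw [← this, conj_conj hcc]
    rw [h6, conj_eq_of_comm hcc h5]
  refine ⟨?_, ?_, ?_⟩
  · rw [hz]; exact h2
  · rw [hz2]; exact h5
  · rw [hz]; exact h3

/-- one half of the argument: `[t^(c d), b]` commutes with `a` -/
theorem hth_three (hE : DLaw E) (hP : Path E) (hC : ∀ x ∈ E, ∀ y ∈ E, c2 x y ∈ E) (ha : a ∈ E) (hb : b ∈ E)
    {t : G} (ht : t ∈ E) (Ha : ∀ e ∈ E, Commute e a → Commute e t) (Hb : ∀ e ∈ E, Commute e b → Commute e t)
    {c d : G} (hc : c ∈ E) (hd : d ∈ E) : Commute (c2 (d * (c * t * c) * d) b) a := by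
  have hcc := hE.inv c hc
  have hdd := hE.inv d hd
  have hbb := hE.inv b hb
  obtain ⟨_, hz2, _⟩ := hth_two hE hP hC hb ht Hb hc hd
  set s := d * (c * t * c) * d with hs
  have hsE : s ∈ E := cjm hE hdd (cjm hE hcc ht)
  -- `s ~ c a c`
  have h1 : Commute s (c * a * c) := by
    have h := hth_one hE hC ha Ha (cjm hE hcc hd)
    have e : c * d * c * t * (c * d * c) = c * s * c := by
      rw [hs]; simp only [mul_assoc]
    rw [e] at h
    exact comm_conj_conj hcc h
  -- `b s b ~ c a c`
  have h2 : Commute (b * s * b) (c * a * c) := by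
    have h := hth_one hE hC ha Ha (cjm hE hcc (cjm hE hbb hd))
    have hyb : b * (c * t * c) * b = c * t * c := conj_eq_of_comm hbb (hth_one hE hC hb Hb hc)
    have e : c * (b * d * b) * c * t * (c * (b * d * b) * c) = c * (b * s * b) * c := by
      calc c * (b * d * b) * c * t * (c * (b * d * b) * c)
          = c * (b * (d * (b * (c * t * c) * b) * d) * b) * c := by simp only [mul_assoc]
        _ = c * (b * s * b) * c := by rw [hyb]
    rw [e] at h
    exact comm_conj_conj hcc h
  have h3 : Commute (c2 s b) (c * a * c) := by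
    have e : c2 s b = s * (b * s * b) := by simp only [c2_def, mul_assoc]
    rw [e]
    exact h1.mul_left h2
  have h4 := comm_conj_conj hcc (y := a) (x := c2 s b) ?_
  · have h5 := conj_comm hcc h3
    rwa [conj_eq_of_comm hcc hz2, conj_conj hcc] at h5
  · rw [conj_eq_of_comm hcc hz2]
    have h5 := conj_comm hcc h3
    rwa [conj_eq_of_comm hcc hz2, conj_conj hcc] at h5

end

/-- **the thinness lemma** -/
theorem hth {E : Set G} (hE : DLaw E) (hP : Path E) (hC : ∀ x ∈ E, ∀ y ∈ E, c2 x y ∈ E) {a b : G} (ha : a ∈ E)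
    (hb : b ∈ E) (H : ∀ e ∈ E, Commute e a ∨ Commute e b → Commute e (c2 a b)) {c d : G} (hc : c ∈ E) (hd : d ∈ E) :
    Commute (c * c2 a b * c) (d * c2 a b * d) := by
  have haa := hE.inv a ha
  have hbb := hE.inv b hb
  have hcc := hE.inv c hc
  have hdd := hE.inv d hd
  have ht := hC a ha b hb
  have Ha : ∀ e ∈ E, Commute e a → Commute e (c2 a b) := fun e he h => H e he (Or.inl h)
  have Hb : ∀ e ∈ E, Commute e b → Commute e (c2 a b) := fun e he h => H e he (Or.inr h)
  obtain ⟨h1a, _, _⟩ := hth_two hE hP hC ha ht Ha hc hd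
  obtain ⟨h2b, _, _⟩ := hth_two hE hP hC hb ht Hb hc hd
  have h2a := hth_three hE hP hC ha hb ht Ha Hb hc hd
  have h1b := hth_three hE hP hC hb ha ht Hb Ha hc hd
  have hsE : d * (c * c2 a b * c) * d ∈ E := cjm hE hdd (cjm hE hcc ht)
  have hss := hE.inv _ hsE
  have hz1s := c2_comm_left hE hsE ha
  set s := d * (c * c2 a b * c) * d with hs
  set z1 := c2 s a with hz1
  set z2 := c2 s b with hz2
  have hz1E : z1 * z1 = 1 := hE.four s hsE a ha
  have hz2E : z2 * z2 = 1 := hE.four s hsE b hb
  have e1 : a * s * a = s * z1 := by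
    rw [hz1]; simp only [c2_def, mul_assoc, canc hss]
  have e2 : b * s * b = s * z2 := by
    rw [hz2]; simp only [c2_def, mul_assoc, canc hss]
  have hz12 : Commute z1 z2 := by
    have : z2 = s * (b * s * b) := by rw [hz2]; simp only [c2_def, mul_assoc]
    rw [this]
    exact hz1s.mul_right ((h1b.symm.mul_left hz1s.symm).mul_left h1b.symm).symm
  -- `t s t⁻¹ = s`
  have key : Commute (c2 a b) s := by
    have f1 : a * (s * z2) * a = s * z1 * z2 := by
      calc a * (s * z2) * a = (a * s) * (z2 * a) := by simp only [mul_assoc]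
        _ = (a * s) * (a * z2) := by rw [h2a.eq]
        _ = (a * s * a) * z2 := by simp only [mul_assoc]
        _ = s * z1 * z2 := by rw [e1]
    have f2 : b * (s * z1 * z2) * b = s * z2 * z1 * z2 := by
      calc b * (s * z1 * z2) * b = (b * s) * (z1 * (z2 * b)) := by simp only [mul_assoc]
        _ = (b * s) * (b * (z1 * z2)) := by rw [h2b.eq, ← mul_assoc z1 b, h1b.eq, mul_assoc b z1]
        _ = (b * s * b) * (z1 * z2) := by simp only [mul_assoc]
        _ = s * z2 * z1 * z2 := by rw [e2]; simp only [mul_assoc]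
    have f3 : a * (s * z2 * z1 * z2) * a = s := by
      calc a * (s * z2 * z1 * z2) * a = (a * s) * (z2 * (z1 * (z2 * a))) := by simp only [mul_assoc]
        _ = (a * s) * (a * (z2 * (z1 * z2))) := by
            rw [h2a.eq, ← mul_assoc z1 a, h1a.eq, mul_assoc a z1, ← mul_assoc z2 a, h2a.eq, mul_assoc a z2]
        _ = (a * s * a) * (z2 * (z1 * z2)) := by simp only [mul_assoc]
        _ = s * z1 * (z2 * (z1 * z2)) := by rw [e1]
        _ = s * z1 * (z2 * (z2 * z1)) := by rw [hz12.eq]
        _ = s := by rw [canc hz2E, mul_assoc, hz1E, mul_one]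
    have f4 : c2 a b * s * (b * a * (b * a)) = s := by
      calc c2 a b * s * (b * a * (b * a)) = a * (b * (a * (b * s * b) * a) * b) * a := by
            simp only [c2_def, mul_assoc]
        _ = s := by rw [e2, f1, f2, f3]
    have f5 : b * a * (b * a) * c2 a b = 1 := by
      simp only [c2_def, mul_assoc, canc haa]
      simp only [canc haa, canc hbb, hbb]
    show c2 a b * s = s * c2 a b
    calc c2 a b * s = c2 a b * s * (b * a * (b * a)) * c2 a b := by rw [mul_assoc _ _ (c2 a b), f5, mul_one]
      _ = s * c2 a b := by rw [f4]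
  have := conj_comm hdd key
  rw [hs, conj_conj hdd] at this
  exact this.symm

end Pool.Agent.Helper89.SV
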