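import Pool.Agent.Helper89.SV.S3aData
import Pool.Agent.Helper94.SV.Frame

/-!
# Stage 3, part (a): `([a, b] s)⁴ = 1`

Let `D` be a normal set of involutions with `(x y)⁴ = 1` and `(x y z)⁴ = 1` for all `x, y, z ∈ D`. If `s² = 1` and `(s d)⁴ = 1` for all `d ∈ D`, then
`([a, b] s)⁴ = 1` for all `a, b ∈ D`. In particular `([a, b] [c, d])⁴ = 1`: the commutators together with `D` satisfy the law again.
-/

set_option autoImplicit false

namespace Pool.Agent.Helper89.SV

open Pool.Agent.Helper94.SV.Frame (c2 DLaw)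

universe u

variable {G : Type u} [Group G]

/-- `(x y z)⁴ = 1` on `D` -/
def P3 (D : Set G) : Prop := ∀ x ∈ D, ∀ y ∈ D, ∀ z ∈ D, (x * y * z) ^ 4 = 1

/-- the three letters -/
def f3 (a b s : G) (i : ℕ) : G :=
  match i with
  | 0 => a
  | 1 => b
  | _ => s

/-- letters act by right multiplication -/
def ract (f : ℕ → G) (i : ℕ) (x : G) : G := x * f i

theorem run_ract (f : ℕ → G) (w : List ℕ) (x : G) : run (ract f) w x = x * (w.map f).prod := by
  induction w generalizing x with
  | nil => simp [run]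
  | cons i w ih => rw [run, ih]; simp [ract, mul_assoc]

theorem four_c2 {x y : G} (h : c2 x y * c2 x y = 1) : (x * y) ^ 4 = 1 := by
  rw [← h]
  show (x * y) ^ 4 = x * y * (x * y) * (x * y * (x * y))
  simp only [pow_succ, pow_zero, one_mul, mul_assoc]

theorem cyc4 {x y : G} (h : (x * y) ^ 4 = 1) : (y * x) ^ 4 = 1 := by
  have h1 : (y * x) ^ 4 = x⁻¹ * (x * y) ^ 4 * x := by
    simp only [pow_succ, pow_zero, one_mul, mul_assoc, inv_mul_cancel_left]
  rw [h1, h, mul_one, inv_mul_cancel]

theorem conj_mem {D : Set G} (hD : DLaw D) {x g : G} (hx : x ∈ D) (hg : g * g = 1) : g * x * g ∈ D := by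
  have h := hD.conj g x hx
  rwa [inv_eq_of_mul_eq_one_left hg] at h

theorem c2_mul_four {D : Set G} (hD : DLaw D) (hP : P3 D) {s : G} (hs : s * s = 1) (hS : ∀ x ∈ D, (s * x) ^ 4 = 1)
    {a b : G} (ha : a ∈ D) (hb : b ∈ D) : (c2 a b * s) ^ 4 = 1 := by
  have haa := hD.inv a ha
  have hbb := hD.inv b hb
  have hact : ∀ i x, ract (f3 a b s) i (ract (f3 a b s) i x) = x := by
    intro i x
    unfold ract f3
    split
    · rw [mul_assoc, haa, mul_one]
    · rw [mul_assoc, hbb, mul_one]
    · rw [mul_assoc, hs, mul_one]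
  have hab := four_c2 (hD.four a ha b hb)
  have has := hS a ha
  have hbs := hS b hb
  have haba := hS _ (conj_mem hD hb haa)
  have hbab := hS _ (conj_mem hD ha hbb)
  have hasbs := four_c2 (hD.four a ha _ (conj_mem hD hb hs))
  have h7 := hP a ha _ (conj_mem hD ha hbb) _ (conj_mem hD ha hs)
  have h8 := hP a ha _ (conj_mem hD ha hbb) _ (conj_mem hD hb hs)
  have h9 := hP _ (conj_mem hD hb haa) _ (conj_mem hD ha hs) _ (conj_mem hD hb hs)
  have h10 := hP _ (conj_mem hD ha hbb) _ (conj_mem hD ha hs) _ (conj_mem hD hb hs)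
  have r2 : (a * (b * a) * s) ^ 4 = 1 := by
    have h := cyc4 haba
    simpa only [mul_assoc] using h
  have r3 : (a * (b * s * b)) ^ 4 = 1 := by
    have e1 : s * (b * a * b) = (s * b * a) * b := by simp only [mul_assoc]
    rw [e1] at hbab
    have h := cyc4 hbab
    have e2 : b * (s * b * a) = (b * s * b) * a := by simp only [mul_assoc]
    rw [e2] at h
    exact cyc4 h
  have hc : ∀ x : G, s * (s * x) = x := fun x => by rw [← mul_assoc, hs, one_mul]
  have r8 : (a * (b * (a * (s * (a * (b * s)))))) ^ 4 = 1 := by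
    have e1 : a * b * a * (s * a * s) * (s * b * s) = a * (b * (a * (s * (a * (b * s))))) := by
      simp only [mul_assoc, hc]
    rw [← e1]
    exact h9
  have r9 : (a * (b * (s * (a * (b * (s * b)))))) ^ 4 = 1 := by
    have e1 : b * a * b * (s * a * s) * (s * b * s) = b * (a * (b * (s * (a * (b * s))))) := by
      simp only [mul_assoc, hc]
    rw [e1] at h10
    have h := cyc4 h10
    simpa only [mul_assoc] using h
  have hrel : ∀ k < 10, ∀ x, run (ract (f3 a b s)) (S3aData.Wk k) x = x := by
    intro k hk x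
    rw [run_ract]
    apply mul_eq_left.2
    simp only [pow_succ, pow_zero, one_mul, mul_assoc] at hab has hbs r2 r3 hasbs h7 h8 r8 r9
    interval_cases k
    all_goals simp only [S3aData.Wk, S3aData.wds, List.getD_cons_zero, List.getD_cons_succ, List.map_cons, List.map_nil,
      List.prod_cons, List.prod_nil, mul_one, f3]
    · exact hab
    · exact (by simpa only [pow_succ, pow_zero, one_mul, mul_assoc] using cyc4 (hS a ha))
    · exact (by simpa only [pow_succ, pow_zero, one_mul, mul_assoc] using cyc4 (hS b hb))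
    · exact r2
    · exact r3
    · exact hasbs
    · exact h7
    · exact h8
    · exact r8
    · exact r9
  have hbase : ∀ k, 10 ≤ k → run (ract (f3 a b s)) (S3aData.Wk k) 1 = 1 := by
    intro k hk
    have : S3aData.Wk k = [] := by
      rw [S3aData.Wk, List.getD_eq_default]
      exact hk
    rw [this]
    rfl
  have h := target_sound (ract (f3 a b s)) hact 1 S3aData.tT S3aData.tS S3aData.tP S3aData.tL 167 3 34 S3aData.Wk 10
    S3aData.dI S3aData.dK S3aData.dR S3aData.tT_lt S3aData.tP_lt S3aData.Wk_letters hrel hbase S3aData.edge_all (by norm_num)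
    _ (by decide) S3aData.chk_target
  rw [run_ract, one_mul] at h
  simp only [List.map_cons, List.map_nil, List.prod_cons, List.prod_nil, mul_one, f3] at h
  have e : (c2 a b * s) ^ 4 = 1 := by
    show (a * b * (a * b) * s) ^ 4 = 1
    simp only [pow_succ, pow_zero, one_mul, mul_assoc]
    exact h
  exact e

/-- a product of two commuting elements of `D` -/
theorem c2_four {D : Set G} (hD : DLaw D) (hP : P3 D) {a b : G} (ha : a ∈ D) (hb : b ∈ D) {d : G} (hd : d ∈ D) :
    (c2 a b * d) ^ 4 = 1 := by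
  have h := hP a ha _ (conj_mem hD ha (hD.inv b hb)) d hd
  have e : a * (b * a * b) * d = c2 a b * d := by
    show a * (b * a * b) * d = a * b * (a * b) * d
    simp only [mul_assoc]
  rwa [e] at h

/-- Stage 3 (a): `([a, b] [c, d])⁴ = 1` -/
theorem c2_c2_four {D : Set G} (hD : DLaw D) (hP : P3 D) {a b c d : G} (ha : a ∈ D) (hb : b ∈ D) (hc : c ∈ D)
    (hd : d ∈ D) : (c2 a b * c2 c d) ^ 4 = 1 :=
  c2_mul_four hD hP (hD.four c hc d hd) (fun _ hx => c2_four hD hP hc hd hx) ha hb

end Pool.Agent.Helper89.SV
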