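import Pool.Agent.Helper89.SV.L1
import Pool.Agent.Helper89.SV.TData
import Pool.Agent.Helper94.SV.Stage3

/-!
# Stage 3, part (b): in the closed world `[[a, b]^c, [a, b]^d] = 1`
-/

set_option autoImplicit false

namespace Pool.Agent.Helper89.SV

open Pool.Agent.Helper94.SV.Frame (c2 DLaw Thin MaxLaw NoLF)

universe u

variable {G : Type u} [Group G]

/-- the letters `a, b, t = dc, t⁻¹` -/
def fT (a b c d : G) (i : ℕ) : G :=
  match i with
  | 0 => a
  | 1 => b
  | 2 => d * c
  | 3 => c * d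
  | _ => 1

theorem fT_inv {a b c d : G} (ha : a * a = 1) (hb : b * b = 1) (hc : c * c = 1) (hd : d * d = 1) (i : ℕ) :
    fT a b c d (TData.iv i) = (fT a b c d i)⁻¹ := by
  have hc' := inv_eq_of_mul_eq_one_left hc
  have hd' := inv_eq_of_mul_eq_one_left hd
  match i with
  | 0 => exact (inv_eq_of_mul_eq_one_left ha).symm
  | 1 => exact (inv_eq_of_mul_eq_one_left hb).symm
  | 2 =>
    show c * d = (d * c)⁻¹
    rw [mul_inv_rev, hc', hd']
  | 3 =>
    show d * c = (c * d)⁻¹
    rw [mul_inv_rev, hc', hd']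
  | (n + 4) =>
    show (1 : G) = (1 : G)⁻¹
    simp

theorem worldT {E : Set G} (hE : DLaw E) (hP : P3 E) (hC : ∀ x ∈ E, ∀ y ∈ E, c2 x y ∈ E) {a b c d : G} (ha : a ∈ E)
    (hb : b ∈ E) (hc : c ∈ E) (hd : d ∈ E) : World (fT a b c d) TData.iv 2 4 E where
  law := hE
  p3 := hP
  clo := hC
  inv := fun i _ => fT_inv (hE.inv a ha) (hE.inv b hb) (hE.inv c hc) (hE.inv d hd) i
  ivlt := fun i hi => (TData.iv_spec i hi).1
  mem := by
    intro i hi
    interval_cases i
    · exact ha
    · exact hb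
  sqm := by
    intro i hi hj
    interval_cases i
    · exact hC d hd c hc
    · exact hC c hc d hd
  tl := by
    intro i hi hj e he
    interval_cases i
    · exact hP d hd c hc e he
    · exact hP c hc d hd e he

theorem relT {E : Set G} (hE : DLaw E) (hP : P3 E) (hC : ∀ x ∈ E, ∀ y ∈ E, c2 x y ∈ E) {a b c d : G} (ha : a ∈ E)
    (hb : b ∈ E) (hc : c ∈ E) (hd : d ∈ E) : ∀ k < 77, ev (fT a b c d) (TData.Wk k) = 1 := by
  intro k hk
  have W := worldT hE hP hC ha hb hc hd
  have hcc := hE.inv c hc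
  have hdd := hE.inv d hd
  have h4 : fT a b c d 2 ^ 4 = 1 := four_c2 (hE.four d hd c hc)
  have hr : ev (fT a b c d) [2, 2, 2, 2] = 1 := by
    rw [← h4]
    simp only [ev, List.map_cons, List.map_nil, List.prod_cons, List.prod_nil, mul_one, pow_succ, pow_zero, one_mul,
      mul_assoc]
  have hL : ∀ x ∈ E, ∀ e ∈ E, Commute (c2 x ((fT a b c d 2)⁻¹ * x * fT a b c d 2)) (e * x * e) := by
    intro x hx e he
    have hee := hE.inv e he
    have h1 : (fT a b c d 2)⁻¹ * x * fT a b c d 2 = c * d * x * d * c := by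
      show (d * c)⁻¹ * x * (d * c) = c * d * x * d * c
      rw [mul_inv_rev, inv_eq_of_mul_eq_one_left hcc, inv_eq_of_mul_eq_one_left hdd]
      simp only [mul_assoc]
    rw [h1]
    exact L1 hE hP hC hx (conj_mem hE hx hee) hc hd
      (Pool.Agent.Helper94.SV.Frame.comm_of_four (hE.inv x hx) hee (hE.four x hx e he))
  have h2 : ∀ i < 2, fT a b c d i * fT a b c d i = 1 := fun i hi => hE.inv _ (W.mem i hi)
  exact W.rel_one [2, 2, 2, 2] 2 2 hr (by norm_num) hL h2 h4 (fT_inv (hE.inv a ha) (hE.inv b hb) hcc hdd 2) (by norm_num) _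
    (TData.Wk_letters k) _ (allB_spec TData.chk_src k hk)

/-- `[z, z^t] = 1` for `z = [a, b]`, `t = dc` -/
theorem S3b {E : Set G} (hE : DLaw E) (hP : P3 E) (hC : ∀ x ∈ E, ∀ y ∈ E, c2 x y ∈ E) {a b c d : G} (ha : a ∈ E)
    (hb : b ∈ E) (hc : c ∈ E) (hd : d ∈ E) : c2 (c2 a b) (c * d * c2 a b * (d * c)) = 1 := by
  have h1 := relT hE hP hC ha hb hc hd
  have h2 := relT hE hP hC hE.one hb hc hd
  have hact : ∀ i y, tact (fT a b c d) (fT 1 b c d) (TData.iv i) (tact (fT a b c d) (fT 1 b c d) i y) = y := by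
    intro i y
    unfold tact
    rw [fT_inv (hE.inv a ha) (hE.inv b hb) (hE.inv c hc) (hE.inv d hd),
      fT_inv (one_mul 1) (hE.inv b hb) (hE.inv c hc) (hE.inv d hd)]
    simp only [inv_inv, mul_assoc, mul_inv_cancel, mul_one, mul_inv_cancel_left]
  have hrel : ∀ k < 77, ∀ y, run (tact (fT a b c d) (fT 1 b c d)) (TData.Wk k) y = y := by
    intro k hk y
    rw [run_tact, h1 k hk, h2 k hk]
    simp
  have hbase : ∀ k, 77 ≤ k → run (tact (fT a b c d) (fT 1 b c d)) (TData.Wk k) 1 = 1 := by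
    intro k hk
    rw [run_tact]
    rcases lt_or_ge k 79 with h | h
    · interval_cases k
      all_goals
        simp only [TData.Wk, TData.wds, List.getD_cons_zero, List.getD_cons_succ, ev_cons, ev_nil, mul_one, fT,
          inv_mul_cancel]
    · have : TData.Wk k = [] := by
        rw [TData.Wk, List.getD_eq_default]
        exact h
      rw [this]
      simp [ev]
  have h := Iv.target_sound _ TData.iv hact 1 TData.tT TData.tS TData.tP TData.tL 5618 4 2295 TData.iv_spec TData.Wk 77
    TData.dI TData.dS TData.dK TData.dR TData.tT_lt TData.tP_lt TData.Wk_letters hrel hbase TData.edge_all (by norm_num)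
    _ (by decide) TData.chk_target
  rw [run_tact, mul_one, inv_mul_eq_one] at h
  simp only [ev_cons, ev_nil, mul_one, one_mul, fT] at h
  have hbb : ∀ w : G, b * (b * w) = w := fun w => by rw [← mul_assoc, hE.inv b hb, one_mul]
  have hcc : ∀ w : G, c * (c * w) = w := fun w => by rw [← mul_assoc, hE.inv c hc, one_mul]
  have hdd : ∀ w : G, d * (d * w) = w := fun w => by rw [← mul_assoc, hE.inv d hd, one_mul]
  simp only [mul_assoc, hbb, hcc, hdd, hE.inv c hc] at h
  show a * b * (a * b) * (c * d * (a * b * (a * b)) * (d * c)) * (a * b * (a * b) * (c * d * (a * b * (a * b)) * (d * c))) = 1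
  simp only [mul_assoc]
  exact h

/-- in the closed world all commutators are thin -/
theorem beta {E : Set G} (hE : DLaw E) (hP : P3 E) (hC : ∀ a ∈ E, ∀ b ∈ E, c2 a b ∈ E) :
    ∀ a ∈ E, ∀ b ∈ E, Thin E (c2 a b) := by
  intro a ha b hb d hd c hc
  have h := S3b hE hP hC ha hb hc hd
  have hz := hE.inv _ (hC a ha b hb)
  generalize c2 a b = z at h hz ⊢
  have hcc : ∀ w : G, c * (c * w) = w := fun w => by rw [← mul_assoc, hE.inv c hc, one_mul]
  have hdd : ∀ w : G, d * (d * w) = w := fun w => by rw [← mul_assoc, hE.inv d hd, one_mul]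
  have hzz : ∀ w : G, z * (z * w) = w := fun w => by rw [← mul_assoc, hz, one_mul]
  have h1 : z * (c * d * z * (d * c)) * (z * (c * d * z * (d * c))) = 1 := h
  have hY : (c * d * z * (d * c)) * (c * d * z * (d * c)) = 1 := by
    simp only [mul_assoc, hcc, hdd, hzz, hE.inv c hc]
  have h2 : z * (c * d * z * (d * c)) = (c * d * z * (d * c)) * z := by
    have h3 := eq_inv_of_mul_eq_one_left h1
    rw [h3, mul_inv_rev, inv_eq_of_mul_eq_one_left hY, inv_eq_of_mul_eq_one_left hz]
  show d * z * d * (c * z * c) = c * z * c * (d * z * d)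
  calc d * z * d * (c * z * c) = c * ((c * d * z * (d * c)) * z) * c := by simp only [mul_assoc, hcc]
    _ = c * (z * (c * d * z * (d * c))) * c := by rw [h2]
    _ = c * z * c * (d * z * d) := by simp only [mul_assoc, hE.inv c hc, mul_one]

/-- Stage 3: if `(x y z)⁴ = 1` on the maximal set `D` and `G` has no nontrivial normal locally finite subgroup then `D` is trivial -/
theorem stage3 (hQ : NoLF G) {D : Set G} (hD : MaxLaw D) (hP : P3 D) : ∀ x ∈ D, x = 1 :=
  Pool.Agent.Helper94.SV.Frame.trivial_of_P3 hQ hD hP (fun hC => beta hD.law hP hC)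

end Pool.Agent.Helper89.SV
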