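import Pool.Agent.Helper89.SV.PathData
import Pool.Agent.Helper89.SV.S3a
import Pool.Agent.Helper94.SV.Frame2

/-!
# The path law: `(x y z)⁴ = 1` for commuting `x, y`

Let `D` be a normal set of involutions with `(x y)⁴ = 1`, and `(x y z)⁴ = 1` for all `x, y, z ∈ D` such that `x y = y x`. If `s² = 1` and
`(s d)⁴ = 1` for all `d ∈ D`, then `([a, b] s)⁴ = 1` for all `a, b ∈ D`. In particular `([a, b] [c, d])⁴ = 1`, and a maximal `D` is closed under
commutators.
-/

set_option autoImplicit false

namespace Pool.Agent.Helper89.SV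

open Pool.Agent.Helper94.SV.Frame (c2 DLaw MaxLaw)

universe u

variable {G : Type u} [Group G]

/-- the path law -/
def Path (D : Set G) : Prop := ∀ x ∈ D, ∀ y ∈ D, Commute x y → ∀ z ∈ D, (x * y * z) ^ 4 = 1

theorem P3.path {D : Set G} (h : P3 D) : Path D := fun x hx y hy _ z hz => h x hx y hy z hz

/-- `x` commutes with `y x y` -/
theorem comm_conj {D : Set G} (hD : DLaw D) {x y : G} (hx : x ∈ D) (hy : y ∈ D) : Commute x (y * x * y) :=
  Pool.Agent.Helper94.SV.Frame.comm_of_four (hD.inv x hx) (hD.inv y hy) (hD.four x hx y hy)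

/-- if `(s d)⁴ = 1` then `d` commutes with `s d s` -/
theorem comm_s {s d : G} (hs : s * s = 1) (hd : d * d = 1) (h : (s * d) ^ 4 = 1) : Commute d (s * d * s) := by
  apply Pool.Agent.Helper94.SV.Frame.comm_of_four hd hs
  have h1 := cyc4 h
  rw [← h1]
  show d * s * (d * s) * (d * s * (d * s)) = (d * s) ^ 4
  simp only [pow_succ, pow_zero, one_mul, mul_assoc]

theorem path_mul_four {D : Set G} (hD : DLaw D) (hP : Path D) {s : G} (hs : s * s = 1) (hS : ∀ x ∈ D, (s * x) ^ 4 = 1)
    {a b : G} (ha : a ∈ D) (hb : b ∈ D) : (c2 a b * s) ^ 4 = 1 := by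
  have haa := hD.inv a ha
  have hbb := hD.inv b hb
  have hact : ∀ i x, ract (f3 a b s) i (ract (f3 a b s) i x) = x := by
    intro i x
    unfold ract f3
    split
    · rw [mul_assoc, haa, mul_one]
    · rw [mul_assoc, hbb, mul_one]
    · rw [mul_assoc, hs, mul_one]
  have hab := four_c2 (hD.four a ha b hb)
  have has := hS a ha
  have hbs := hS b hb
  have haba := hS _ (conj_mem hD hb haa)
  have hbab := hS _ (conj_mem hD ha hbb)
  have hasbs := four_c2 (hD.four a ha _ (conj_mem hD hb hs))
  have h7 : (a * (b * (s * (a * s)))) ^ 4 = 1 := by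
    have h := hP _ (conj_mem hD ha hs) a ha (comm_s hs haa has).symm b hb
    have e1 : s * a * s * a * b = (s * a * s) * (a * b) := by simp only [mul_assoc]
    rw [e1] at h
    have h' := cyc4 h
    simpa only [mul_assoc] using h'
  have h8 : (a * (b * (s * (b * s)))) ^ 4 = 1 := by
    have h := hP b hb _ (conj_mem hD hb hs) (comm_s hs hbb hbs) a ha
    have h' := cyc4 h
    simpa only [mul_assoc] using h'
  have r2 : (a * (b * a) * s) ^ 4 = 1 := by
    have h := cyc4 haba
    simpa only [mul_assoc] using h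
  have r3 : (a * (b * s * b)) ^ 4 = 1 := by
    have e1 : s * (b * a * b) = (s * b * a) * b := by simp only [mul_assoc]
    rw [e1] at hbab
    have h := cyc4 hbab
    have e2 : b * (s * b * a) = (b * s * b) * a := by simp only [mul_assoc]
    rw [e2] at h
    exact cyc4 h
  have hrel : ∀ k < 8, ∀ x, run (ract (f3 a b s)) (PathData.Wk k) x = x := by
    intro k hk x
    rw [run_ract]
    apply mul_eq_left.2
    simp only [pow_succ, pow_zero, one_mul, mul_assoc] at hab has hbs r2 r3 hasbs h7 h8
    interval_cases k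
    all_goals simp only [PathData.Wk, PathData.wds, List.getD_cons_zero, List.getD_cons_succ, List.map_cons, List.map_nil,
      List.prod_cons, List.prod_nil, mul_one, f3]
    · exact hab
    · exact (by simpa only [pow_succ, pow_zero, one_mul, mul_assoc] using cyc4 (hS a ha))
    · exact (by simpa only [pow_succ, pow_zero, one_mul, mul_assoc] using cyc4 (hS b hb))
    · exact r2
    · exact r3
    · exact hasbs
    · exact h7
    · exact h8
  have hbase : ∀ k, 8 ≤ k → run (ract (f3 a b s)) (PathData.Wk k) 1 = 1 := by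
    intro k hk
    have : PathData.Wk k = [] := by
      rw [PathData.Wk, List.getD_eq_default]
      exact hk
    rw [this]
    rfl
  have h := target_sound (ract (f3 a b s)) hact 1 PathData.tT PathData.tS PathData.tP PathData.tL 201 3 46 PathData.Wk 8
    PathData.dI PathData.dK PathData.dR PathData.tT_lt PathData.tP_lt PathData.Wk_letters hrel hbase PathData.edge_all (by norm_num)
    _ (by decide) PathData.chk_target
  rw [run_ract, one_mul] at h
  simp only [List.map_cons, List.map_nil, List.prod_cons, List.prod_nil, mul_one, f3] at h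
  have e : (c2 a b * s) ^ 4 = 1 := by
    show (a * b * (a * b) * s) ^ 4 = 1
    simp only [pow_succ, pow_zero, one_mul, mul_assoc]
    exact h
  exact e

theorem path_c2_four {D : Set G} (hD : DLaw D) (hP : Path D) {a b : G} (ha : a ∈ D) (hb : b ∈ D) {d : G} (hd : d ∈ D) :
    (c2 a b * d) ^ 4 = 1 := by
  have h := hP a ha _ (conj_mem hD ha (hD.inv b hb)) (comm_conj hD ha hb) d hd
  have e : a * (b * a * b) * d = c2 a b * d := by
    show a * (b * a * b) * d = a * b * (a * b) * d
    simp only [mul_assoc]
  rwa [e] at h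

/-- `([a, b] [c, d])⁴ = 1` -/
theorem path_c2_c2_four {D : Set G} (hD : DLaw D) (hP : Path D) {a b c d : G} (ha : a ∈ D) (hb : b ∈ D) (hc : c ∈ D)
    (hd : d ∈ D) : (c2 a b * c2 c d) ^ 4 = 1 :=
  path_mul_four hD hP (hD.four c hc d hd) (fun _ hx => path_c2_four hD hP hc hd hx) ha hb

/-- under the path law the maximal set is closed under commutators -/
theorem closed_of_path {D : Set G} (hD : MaxLaw D) (hP : Path D) : ∀ a ∈ D, ∀ b ∈ D, c2 a b ∈ D := by
  intro a ha b hb
  refine Pool.Agent.Helper94.SV.Frame.mem_of_class hD (hD.law.four a ha b hb) ?_ ?_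
  · intro d hd
    exact Pool.Agent.Helper94.SV.Frame.four_of_pow (path_c2_four hD.law hP ha hb hd)
  · intro g
    rw [Pool.Agent.Helper94.SV.Frame.conj_c2]
    exact Pool.Agent.Helper94.SV.Frame.four_of_pow
      (path_c2_c2_four hD.law hP ha hb (hD.law.conj g a ha) (hD.law.conj g b hb))

end Pool.Agent.Helper89.SV
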