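import Pool.Agent.Helper94.SV.KFrame
import Pool.Agent.Helper89.SV.HTH

/-!
# Step KQ: `ω = w_a = w_b = w_c` is thin

`KQ1 E`: if `w_a = w_b = w_c` (`ω`) and `a` commutes with `d` then `ω` commutes with `d`.
From it: `ω = [x, y]` with `x = a^b`, `y = a^c`, and every element of `E` which commutes with `x` or with `y`
commutes with `ω`; so `ω` is thin by `hth`.
-/

set_option autoImplicit false

open Subgroup

namespace Pool.Agent.Helper89.SV

open Pool.Agent.Helper94.SV.Frame (c2 DLaw MaxLaw NoLF Thin LF lf_of_chain)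
open Pool.Agent.Helper94.SV.K6 (NoP128)
open Pool.Agent.Helper94.SV.JPrime (dlaw_conjs locFin_of_lf_top)
open Pool.Agent.Helper94.SV.TL (Closed MulClosed QLaw HKC HKE HKQ)
open Pool.Agent.Helper46.SV (kk cj ww)
open Pool.Agent.Helper94.SV (cm LocFin)

universe u

/-- `ω` commutes with every `d` which commutes with `a` -/
def KQ1 {G : Type u} [Group G] (E : Set G) : Prop := ∀ a ∈ E, ∀ b ∈ E, ∀ c ∈ E, ∀ d ∈ E,
  ww a b c = ww b c a → ww b c a = ww c a b → Commute a d → Commute (ww a b c) d

section

variable {G : Type u} [Group G]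

/-- if `ω` commutes with `C_E(a)`, `C_E(b)` and `C_E(c)` then `ω` commutes with everything which commutes
with `a^b` -/
theorem comm_of_conj {E : Set G} (hE : DLaw E) {a b w : G} (hb : b ∈ E) (hwb : Commute w b)
    (h : ∀ e ∈ E, Commute a e → Commute w e) {e : G} (he : e ∈ E) (hc : Commute e (b * a * b)) :
    Commute e w := by
  have hbb := hE.inv b hb
  have h1 : Commute (b * e * b) w := by
    refine (h _ (hE.conj' he hbb) ?_).symm
    have h2 : a * (b * e * b) = b * (b * a * b * e) * b := by
      simp only [mul_assoc, Pool.Agent.Helper94.SV.Frame.canc hbb]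
    have h3 : b * e * b * a = b * (e * (b * a * b)) * b := by
      simp only [mul_assoc, hbb, mul_one]
    show a * (b * e * b) = b * e * b * a
    rw [h2, h3, hc.eq]
  have h4 : b * w * b = w := by rw [← hwb.eq, mul_assoc, hbb, mul_one]
  show e * w = w * e
  have h5 : e * w = b * (b * e * b * w) * b := by
    have : b * (b * e * b * w) * b = e * (b * w * b) := by
      simp only [mul_assoc, Pool.Agent.Helper94.SV.Frame.canc hbb]
    rw [this, h4]
  have h6 : w * e = b * (w * (b * e * b)) * b := by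
    have : b * (w * (b * e * b)) * b = b * w * b * e := by
      simp only [mul_assoc, hbb, mul_one]
    rw [this, h4]
  rw [h5, h6, h1.eq]

theorem thin_of_kq1 {E : Set G} (hE : DLaw E) (hP : Path E) (hC : Closed E) (hK : KQ1 E) {a b c : G}
    (ha : a ∈ E) (hb : b ∈ E) (hc : c ∈ E) (h1 : ww a b c = ww b c a) (h2 : ww b c a = ww c a b) :
    Thin E (ww a b c) := by
  have hA : ∀ e ∈ E, Commute a e → Commute (ww a b c) e := fun e he h =>
    hK a ha b hb c hc e he h1 h2 h
  have hwb : Commute (ww a b c) b := by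
    rw [h1]
    exact hK b hb c hc a ha b hb h2 (h2.symm.trans h1.symm) (Commute.refl b)
  have hwc : Commute (ww a b c) c := by
    rw [h1, h2]
    exact hK c hc a ha b hb c hc (h2.symm.trans h1.symm) h1 (Commute.refl c)
  have H : ∀ e ∈ E, Commute e (b * a * b) ∨ Commute e (c * a * c) →
      Commute e (c2 (b * a * b) (c * a * c)) := by
    intro e he h
    rcases h with h | h
    · exact comm_of_conj hE hb hwb hA he h
    · exact comm_of_conj hE hc hwc hA he h
  intro d hd e he
  exact hth hE hP hC (hE.conj' ha (hE.inv b hb)) (hE.conj' ha (hE.inv c hc)) H hd he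

end

/-- `KQ1` for all closed sets -/
def HKQ1 : Prop := ∀ (Q : Type u) [Group Q] (E : Set Q), DLaw E → Path E → Closed E → MulClosed E →
  QLaw E → KQ1 E

theorem hkq (h : HKQ1.{u}) : HKQ.{u} := by
  intro Q _ hN _ E hE hC hM hQL a ha b hb c hc h1 h2
  have hP : Path E := hN.path hE.law
  exact thin_of_kq1 hE.law hP hC (h Q E hE.law hP hC hM hQL) ha hb hc h1 h2

theorem triv (hKC : HKC.{u}) (hKE : HKE.{u}) (hKQ : HKQ.{u}) {G : Type u} [Group G] (hG : NoP128 G)
    (hQ : NoLF G) {E : Set G} (hE : MaxLaw E) : ∀ x ∈ E, x = 1 :=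
  stage3 hQ hE (Pool.Agent.Helper94.SV.TL.p3 hKC hKE hKQ hG hQ hE
    (closed_of_path hE (hG.path hE.law)))

/-- in a `P128`-free group every `DLaw` set generates a locally finite subgroup -/
theorem lf_of_noP128 (hKC : HKC.{u}) (hKE : HKE.{u}) (hKQ : HKQ.{u}) (G : Type u) [Group G]
    (hG : NoP128 G) (D : Set G) (hD : DLaw D) : LF (closure D) :=
  lf_of_chain G (fun N _ hN _ hE => triv hKC hKE hKQ (hG.quotient N) hN hE) D hD

/-- **Theorem K** -/
theorem partK (hKC : HKC.{u}) (hKE : HKE.{u}) (hKQ : HKQ.{u}) (G : Type u) [Group G] {x : G}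
    (hx : x * x = 1) (hE : ∀ g : G, cm (cm (cm g x) x) x = 1)
    (hN : NoP128 (normalClosure ({x} : Set G))) : LocFin (normalClosure ({x} : Set G)) := by
  have h1 := lf_of_noP128 hKC hKE hKQ _ hN _ (dlaw_conjs hx hE)
  have h2 : closure (insert 1 (Pool.Agent.Helper94.SV.conjs x)) = ⊤ := by
    rw [eq_top_iff, ← Pool.Agent.Helper94.SV.closure_conjs x]
    exact Subgroup.closure_mono (Set.subset_insert _ _)
  rw [h2] at h1
  exact locFin_of_lf_top h1

end Pool.Agent.Helper89.SV
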