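import Pool.Agent.Helper89.SV.L1Data

/-!
# L1: in the closed world `e` commutes with `[x, x^(dc)]` if it commutes with `x`
-/

set_option autoImplicit false

namespace Pool.Agent.Helper89.SV

open Pool.Agent.Helper94.SV.Frame (c2 DLaw)

universe u

variable {G : Type u} [Group G]

/-- four letters -/
def f4 (a b c d : G) (i : ℕ) : G :=
  match i with
  | 0 => a
  | 1 => b
  | 2 => c
  | 3 => d
  | _ => 1

/-- the twisted action -/
def tact (f f' : ℕ → G) (i : ℕ) (x : G) : G := (f i)⁻¹ * x * f' i

theorem run_tact (f f' : ℕ → G) (w : List ℕ) (x : G) : run (tact f f') w x = (ev f w)⁻¹ * x * ev f' w := by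
  induction w generalizing x with
  | nil => simp [run, ev]
  | cons i w ih =>
    rw [run, ih, ev_cons, ev_cons]
    simp only [tact, mul_inv_rev, mul_assoc]

theorem world4 {E : Set G} (hE : DLaw E) (hP : P3 E) (hC : ∀ x ∈ E, ∀ y ∈ E, c2 x y ∈ E) {a b c d : G} (ha : a ∈ E)
    (hb : b ∈ E) (hc : c ∈ E) (hd : d ∈ E) : World (f4 a b c d) (fun i => i) 4 4 E where
  law := hE
  p3 := hP
  clo := hC
  inv := by
    intro i hi
    have h : f4 a b c d i ∈ E := by
      interval_cases i
      · exact ha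
      · exact hb
      · exact hc
      · exact hd
    exact (inv_eq_of_mul_eq_one_left (hE.inv _ h)).symm
  ivlt := fun i hi => hi
  mem := by
    intro i hi
    interval_cases i
    · exact ha
    · exact hb
    · exact hc
    · exact hd
  sqm := by
    intro i hi hj
    omega
  tl := by
    intro i hi hj
    omega

theorem rel4 {E : Set G} (hE : DLaw E) (hP : P3 E) (hC : ∀ x ∈ E, ∀ y ∈ E, c2 x y ∈ E) {a b c d : G} (ha : a ∈ E)
    (hb : b ∈ E) (hc : c ∈ E) (hd : d ∈ E) (hab : Commute a b) : ∀ k < 73, ev (f4 a b c d) (L1Data.Wk k) = 1 := by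
  intro k hk
  have W := world4 hE hP hC ha hb hc hd
  have haa := hE.inv a ha
  have hbb := hE.inv b hb
  have hr : ev (f4 a b c d) [0, 1, 0, 1] = 1 := by
    have e : ev (f4 a b c d) [0, 1, 0, 1] = a * b * (a * b) := by
      simp only [ev, List.map_cons, List.map_nil, List.prod_cons, List.prod_nil, mul_one, f4, mul_assoc]
    rw [e, hab.eq, mul_assoc, ← mul_assoc a b a, hab.eq, mul_assoc b a a, haa, mul_one, hbb]
  have hL : ∀ x ∈ E, ∀ e ∈ E, Commute (c2 x ((f4 a b c d 0)⁻¹ * x * f4 a b c d 0)) (e * x * e) := by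
    intro x hx e he
    have h1 : c2 x ((f4 a b c d 0)⁻¹ * x * f4 a b c d 0) = 1 := by
      show c2 x (a⁻¹ * x * a) = 1
      rw [inv_eq_of_mul_eq_one_left haa]
      have h2 : c2 x (a * x * a) = c2 x a * c2 x a := by
        show x * (a * x * a) * (x * (a * x * a)) = x * a * (x * a) * (x * a * (x * a))
        simp only [mul_assoc]
      rw [h2]
      exact hE.four x hx a ha
    rw [h1]
    exact Commute.one_left _
  have h2 : ∀ i < 4, f4 a b c d i * f4 a b c d i = 1 := fun i hi => hE.inv _ (W.mem i hi)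
  exact W.rel_one [0, 1, 0, 1] 0 4 hr (by norm_num) hL h2 (by show (1 : G) ^ 4 = 1; simp)
    (by show (1 : G) = (1 : G)⁻¹; simp) (by norm_num) _ (L1Data.Wk_letters k) _ (allB_spec L1Data.chk_src k hk)

/-- L1 -/
theorem L1 {E : Set G} (hE : DLaw E) (hP : P3 E) (hC : ∀ x ∈ E, ∀ y ∈ E, c2 x y ∈ E) {x e c d : G} (hx : x ∈ E)
    (he : e ∈ E) (hc : c ∈ E) (hd : d ∈ E) (hxe : Commute x e) : Commute (c2 x (c * d * x * d * c)) e := by
  have h1 := rel4 hE hP hC hx he hc hd hxe
  have h2 := rel4 hE hP hC hx hE.one hc hd (Commute.one_right x)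
  have W := world4 hE hP hC hx he hc hd
  have W' := world4 hE hP hC hx hE.one hc hd
  have hact : ∀ i y, tact (f4 x e c d) (f4 x 1 c d) i (tact (f4 x e c d) (f4 x 1 c d) i y) = y := by
    intro i y
    have hi : ∀ a b : G, a ∈ E → f4 x a c d i * f4 x a c d i = 1 := by
      intro a b ha
      unfold f4
      split
      · exact hE.inv _ hx
      · exact hE.inv _ ha
      · exact hE.inv _ hc
      · exact hE.inv _ hd
      · simp
    have e1 := hi e 1 he
    have e2 := hi 1 1 hE.one
    unfold tact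
    have e3 : (f4 x e c d i)⁻¹ * ((f4 x e c d i)⁻¹ * y * f4 x 1 c d i) * f4 x 1 c d i =
        (f4 x e c d i * f4 x e c d i)⁻¹ * y * (f4 x 1 c d i * f4 x 1 c d i) := by
      simp only [mul_inv_rev, mul_assoc]
    rw [e3, e1, e2]
    simp
  have hrel : ∀ k < 73, ∀ y, run (tact (f4 x e c d) (f4 x 1 c d)) (L1Data.Wk k) y = y := by
    intro k hk y
    rw [run_tact, h1 k hk, h2 k hk]
    simp
  have hbase : ∀ k, 73 ≤ k → run (tact (f4 x e c d) (f4 x 1 c d)) (L1Data.Wk k) 1 = 1 := by
    intro k hk
    rw [run_tact]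
    rcases lt_or_ge k 76 with h | h
    · interval_cases k
      all_goals
        simp only [L1Data.Wk, L1Data.wds, List.getD_cons_zero, List.getD_cons_succ, ev_cons, ev_nil, mul_one, f4,
          inv_mul_cancel]
    · have : L1Data.Wk k = [] := by
        rw [L1Data.Wk, List.getD_eq_default]
        exact h
      rw [this]
      simp [ev]
  have h := target_sound _ hact 1 L1Data.tT L1Data.tS L1Data.tP L1Data.tL 302 4 136 L1Data.Wk 73
    L1Data.dI L1Data.dK L1Data.dR L1Data.tT_lt L1Data.tP_lt L1Data.Wk_letters hrel hbase L1Data.edge_all (by norm_num)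
    _ (by decide) L1Data.chk_target
  rw [run_tact, mul_one, inv_mul_eq_one] at h
  simp only [ev_cons, ev_nil, mul_one, one_mul, f4] at h
  have hee := hE.inv e he
  have h3 : e * c2 x (c * d * x * d * c) * e = c2 x (c * d * x * d * c) := by
    show e * (x * (c * d * x * d * c) * (x * (c * d * x * d * c))) * e = x * (c * d * x * d * c) * (x * (c * d * x * d * c))
    simp only [mul_assoc]
    exact h
  show c2 x (c * d * x * d * c) * e = e * c2 x (c * d * x * d * c)
  calc c2 x (c * d * x * d * c) * e = e * e * (c2 x (c * d * x * d * c) * e) := by rw [hee, one_mul]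
    _ = e * (e * c2 x (c * d * x * d * c) * e) := by simp only [mul_assoc]
    _ = e * c2 x (c * d * x * d * c) := by rw [h3]

end Pool.Agent.Helper89.SV
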