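import Pool.Agent.Helper89.SV.Act
import Pool.Agent.Helper89.SV.S3a

/-!
# Sources of relators in the closed world

`World f E`: letters `f i`, `i < m`, lie in `E`; the letters `f i`, `m ≤ i < n`, are of order dividing `4`, have their square in `E` and satisfy
`(f i · e)⁴ = 1` for `e ∈ E`. `E` is closed under commutators and satisfies the laws `(x y)⁴ = 1`, `(x y z)⁴ = 1`.
-/

set_option autoImplicit false

namespace Pool.Agent.Helper89.SV

open Pool.Agent.Helper94.SV.Frame (c2 DLaw)

universe u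

variable {G : Type u} [Group G]

/-- terms for elements of `E` -/
inductive ET
  | l (i : ℕ) : ET
  | sq (i : ℕ) : ET
  | cj (i : ℕ) (x : ET) : ET
  | cm (x y : ET) : ET

/-- the word of a term -/
def ET.wd (iv : ℕ → ℕ) : ET → List ℕ
  | .l i => [i]
  | .sq i => [i, i]
  | .cj i x => iv i :: (x.wd iv ++ [i])
  | .cm x y => (x.wd iv ++ y.wd iv) ++ (x.wd iv ++ y.wd iv)

/-- admissible terms -/
def ET.ok (m n : ℕ) : ET → Bool
  | .l i => Nat.blt i m
  | .sq i => Nat.ble m i && Nat.blt i n
  | .cj i x => Nat.blt i n && x.ok m n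
  | .cm x y => x.ok m n && y.ok m n

/-- the value of a word -/
def ev (f : ℕ → G) (w : List ℕ) : G := (w.map f).prod

theorem ev_nil (f : ℕ → G) : ev f [] = 1 := rfl

theorem ev_cons (f : ℕ → G) (s : ℕ) (w : List ℕ) : ev f (s :: w) = f s * ev f w := by
  simp [ev]

theorem ev_append (f : ℕ → G) (u w : List ℕ) : ev f (u ++ w) = ev f u * ev f w := by
  simp [ev]

/-- the letters of a world -/
structure World (f : ℕ → G) (iv : ℕ → ℕ) (m n : ℕ) (E : Set G) : Prop where
  law : DLaw E
  p3 : P3 E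
  clo : ∀ x ∈ E, ∀ y ∈ E, c2 x y ∈ E
  inv : ∀ i < n, f (iv i) = (f i)⁻¹
  ivlt : ∀ i < n, iv i < n
  mem : ∀ i < m, f i ∈ E
  sqm : ∀ i, m ≤ i → i < n → f i * f i ∈ E
  tl : ∀ i, m ≤ i → i < n → ∀ e ∈ E, (f i * e) ^ 4 = 1

theorem World.wd_mem {f : ℕ → G} {iv : ℕ → ℕ} {m n : ℕ} {E : Set G} (W : World f iv m n E) (x : ET)
    (hx : x.ok m n = true) : ev f (x.wd iv) ∈ E := by
  induction x with
  | l i =>
    have hi : i < m := by simpa [ET.ok, Nat.blt_eq] using hx
    simpa [ET.wd, ev] using W.mem i hi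
  | sq i =>
    have hi : m ≤ i ∧ i < n := by simpa [ET.ok, Nat.blt_eq] using hx
    simpa [ET.wd, ev] using W.sqm i hi.1 hi.2
  | cj i x ih =>
    have hi : i < n ∧ x.ok m n = true := by simpa [ET.ok, Nat.blt_eq] using hx
    have h := W.law.conj (f i)⁻¹ _ (ih hi.2)
    rw [inv_inv] at h
    have e : ev f ((ET.cj i x).wd iv) = (f i)⁻¹ * ev f (x.wd iv) * f i := by
      show ev f (iv i :: (x.wd iv ++ [i])) = _
      rw [ev_cons, ev_append, W.inv i hi.1, ev_cons, ev_nil, mul_one, mul_assoc]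
    rw [e]
    exact h
  | cm x y ihx ihy =>
    have hi : x.ok m n = true ∧ y.ok m n = true := by simpa [ET.ok] using hx
    have h := W.clo _ (ihx hi.1) _ (ihy hi.2)
    have e : ev f ((ET.cm x y).wd iv) = c2 (ev f (x.wd iv)) (ev f (y.wd iv)) := by
      show ev f ((x.wd iv ++ y.wd iv) ++ (x.wd iv ++ y.wd iv)) = _
      rw [ev_append, ev_append]
      rfl
    rw [e]
    exact h

/-- the word repeated four times -/
def four (w : List ℕ) : List ℕ := (w ++ w) ++ (w ++ w)

theorem ev_four (f : ℕ → G) (w : List ℕ) : ev f (four w) = (ev f w) ^ 4 := by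
  rw [four, ev_append, ev_append]
  simp only [pow_succ, pow_zero, one_mul, mul_assoc]

/-- sources of relators -/
inductive Src
  | R : Src
  | S (x : ET) : Src
  | D (x y : ET) : Src
  | P (x y z : ET) : Src
  | T (i : ℕ) (x : ET) : Src
  | L (x e : ET) : Src

/-- the inverse word -/
def invW (iv : ℕ → ℕ) (w : List ℕ) : List ℕ := (w.map iv).reverse

theorem ev_invW {f : ℕ → G} {iv : ℕ → ℕ} {n : ℕ} (hiv : ∀ i < n, f (iv i) = (f i)⁻¹) (w : List ℕ) (hw : ∀ s ∈ w, s < n) :
    ev f (invW iv w) = (ev f w)⁻¹ := by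
  induction w with
  | nil => simp [invW, ev]
  | cons s w ih =>
    have h1 : invW iv (s :: w) = invW iv w ++ [iv s] := by simp [invW]
    rw [h1, ev_append, ih (fun t ht => hw t (by simp [ht])), ev_cons, ev_cons, ev_nil, mul_one, mul_inv_rev,
      hiv s (hw s (by simp))]

/-- the word of a source; `rw` is the base relator, `tt` the letter `t` of order four used in `L` -/
def Src.wd (iv : ℕ → ℕ) (rw : List ℕ) (tt : ℕ) : Src → List ℕ
  | .R => rw
  | .S x => x.wd iv ++ x.wd iv
  | .D x y => four (x.wd iv ++ y.wd iv)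
  | .P x y z => four (x.wd iv ++ (y.wd iv ++ z.wd iv))
  | .T i x => four (i :: x.wd iv)
  | .L x e =>
    let X := x.wd iv
    let Y := iv tt :: (X ++ [tt])
    let Z := (e.wd iv ++ X) ++ e.wd iv
    (((Y ++ X) ++ (Y ++ X)) ++ Z) ++ (((X ++ Y) ++ (X ++ Y)) ++ Z)

/-- admissible sources -/
def Src.ok (m n : ℕ) : Src → Bool
  | .R => true
  | .S x => x.ok m n
  | .D x y => x.ok m n && y.ok m n
  | .P x y z => x.ok m n && (y.ok m n && z.ok m n)
  | .T i x => (Nat.ble m i && Nat.blt i n) && x.ok m n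
  | .L x e => x.ok m n && e.ok m n

theorem World.src_one {f : ℕ → G} {iv : ℕ → ℕ} {m n : ℕ} {E : Set G} (W : World f iv m n E) (r : List ℕ) (tt : ℕ)
    (hr : ev f r = 1) (htt : tt < n)
    (hL : ∀ x ∈ E, ∀ e ∈ E, Commute (c2 x ((f tt)⁻¹ * x * f tt)) (e * x * e)) (s : Src) (hs : s.ok m n = true) :
    ev f (s.wd iv r tt) = 1 := by
  cases s with
  | R => exact hr
  | S x =>
    show ev f (x.wd iv ++ x.wd iv) = 1
    rw [ev_append]
    exact W.law.inv _ (W.wd_mem x hs)
  | D x y =>
    have h : x.ok m n = true ∧ y.ok m n = true := by simpa [Src.ok] using hs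
    show ev f (four (x.wd iv ++ y.wd iv)) = 1
    rw [ev_four, ev_append]
    exact four_c2 (W.law.four _ (W.wd_mem x h.1) _ (W.wd_mem y h.2))
  | P x y z =>
    have h : x.ok m n = true ∧ y.ok m n = true ∧ z.ok m n = true := by simpa [Src.ok] using hs
    show ev f (four (x.wd iv ++ (y.wd iv ++ z.wd iv))) = 1
    rw [ev_four, ev_append, ev_append, ← mul_assoc]
    exact W.p3 _ (W.wd_mem x h.1) _ (W.wd_mem y h.2.1) _ (W.wd_mem z h.2.2)
  | T i x =>
    have h : (m ≤ i ∧ i < n) ∧ x.ok m n = true := by simpa [Src.ok, Nat.blt_eq] using hs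
    show ev f (four (i :: x.wd iv)) = 1
    rw [ev_four, ev_cons]
    exact W.tl i h.1.1 h.1.2 _ (W.wd_mem x h.2)
  | L x e =>
    have h : x.ok m n = true ∧ e.ok m n = true := by simpa [Src.ok] using hs
    have hX := W.wd_mem x h.1
    have hE := W.wd_mem e h.2
    have hXt : (f tt)⁻¹ * ev f (x.wd iv) * f tt ∈ E := by
      have h := W.law.conj (f tt)⁻¹ _ hX
      rwa [inv_inv] at h
    have e1 : ev f ((Src.L x e).wd iv r tt) =
        c2 ((f tt)⁻¹ * ev f (x.wd iv) * f tt) (ev f (x.wd iv)) * (ev f (e.wd iv) * ev f (x.wd iv) * ev f (e.wd iv)) *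
        (c2 (ev f (x.wd iv)) ((f tt)⁻¹ * ev f (x.wd iv) * f tt) * (ev f (e.wd iv) * ev f (x.wd iv) * ev f (e.wd iv))) := by
      simp only [Src.wd, ev_append, ev_cons, ev_nil, mul_one, W.inv tt htt]
      simp only [Pool.Agent.Helper94.SV.Frame.c2_def, mul_assoc]
    rw [e1]
    have hc := hL _ hX _ hE
    have h1 : c2 ((f tt)⁻¹ * ev f (x.wd iv) * f tt) (ev f (x.wd iv)) *
        c2 (ev f (x.wd iv)) ((f tt)⁻¹ * ev f (x.wd iv) * f tt) = 1 := by
      have hx2 := W.law.inv _ hX
      have hy2 := W.law.inv _ hXt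
      generalize ev f (x.wd iv) = p at hx2 hy2 ⊢
      generalize (f tt)⁻¹ * p * f tt = q at hy2 ⊢
      have a1 : ∀ w : G, p * (p * w) = w := fun w => by rw [← mul_assoc, hx2, one_mul]
      have a2 : ∀ w : G, q * (q * w) = w := fun w => by rw [← mul_assoc, hy2, one_mul]
      simp only [Pool.Agent.Helper94.SV.Frame.c2_def, mul_assoc, a1, a2, hy2]
    have h2 := W.law.inv _ (conj_mem W.law hX (W.law.inv _ hE))
    rw [mul_assoc, ← mul_assoc _ (c2 (ev f (x.wd iv)) _) _, ← hc.eq, mul_assoc (c2 (ev f (x.wd iv)) _), h2, mul_one, h1]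

/-- put the letter `t` on a stack of letters `< k` (involutions) and `k` (of order four) -/
def pushT (k : ℕ) (st : List ℕ) : List ℕ :=
  match st with
  | h1 :: h2 :: h3 :: r => if h1 = k ∧ h2 = k ∧ h3 = k then r else k :: h1 :: h2 :: h3 :: r
  | _ => k :: st

/-- put a letter on the stack -/
def push (k : ℕ) (st : List ℕ) (s : ℕ) : List ℕ :=
  if s < k then
    match st with
    | h :: r => if h = s then r else s :: h :: r
    | [] => [s]
  else if s = k then pushT k st else pushT k (pushT k (pushT k st))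

/-- normal form -/
def nf (k : ℕ) (w : List ℕ) : List ℕ := w.foldl (push k) []

theorem ev_pushT {f : ℕ → G} {k : ℕ} (h4 : f k ^ 4 = 1) (st : List ℕ) :
    ev f (pushT k st).reverse = ev f st.reverse * f k := by
  unfold pushT
  split
  · rename_i h1 h2 h3 r
    split
    · rename_i h
      rw [h.1, h.2.1, h.2.2]
      simp only [List.reverse_cons, ev_append, ev_cons, ev_nil, mul_one, mul_assoc]
      have e : f k * (f k * (f k * f k)) = 1 := by
        rw [← h4]
        simp only [pow_succ, pow_zero, one_mul, mul_assoc]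
      rw [e, mul_one]
    · simp only [List.reverse_cons, ev_append, ev_cons, ev_nil, mul_one, mul_assoc]
  · simp only [List.reverse_cons, ev_append, ev_cons, ev_nil, mul_one]

theorem ev_push {f : ℕ → G} {k : ℕ} (h2 : ∀ i < k, f i * f i = 1) (h4 : f k ^ 4 = 1) (hT : f (k + 1) = (f k)⁻¹)
    (st : List ℕ) (s : ℕ) (hs : s < k + 2) : ev f (push k st s).reverse = ev f st.reverse * f s := by
  unfold push
  split
  · rename_i h
    split
    · rename_i h' r
      split
      · rename_i e
        subst e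
        simp only [List.reverse_cons, ev_append, ev_cons, ev_nil, mul_one, mul_assoc]
        rw [h2 _ h, mul_one]
      · simp only [List.reverse_cons, ev_append, ev_cons, ev_nil, mul_one]
    · simp only [List.reverse_cons, ev_append, ev_cons, ev_nil, mul_one]
  · split
    · rename_i h h'
      subst h'
      exact ev_pushT h4 st
    · rename_i h h'
      have e : s = k + 1 := by omega
      subst e
      rw [ev_pushT h4, ev_pushT h4, ev_pushT h4, hT]
      have e : f k * (f k * f k) = (f k)⁻¹ := by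
        apply eq_inv_of_mul_eq_one_left
        rw [← h4]
        simp only [pow_succ, pow_zero, one_mul, mul_assoc]
      rw [mul_assoc, mul_assoc, e]

theorem ev_nf {f : ℕ → G} {k : ℕ} (h2 : ∀ i < k, f i * f i = 1) (h4 : f k ^ 4 = 1) (hT : f (k + 1) = (f k)⁻¹)
    (w : List ℕ) (hw : ∀ s ∈ w, s < k + 2) : ev f (nf k w).reverse = ev f w := by
  have h : ∀ (w : List ℕ) (st : List ℕ), (∀ s ∈ w, s < k + 2) →
      ev f (w.foldl (push k) st).reverse = ev f st.reverse * ev f w := by
    intro w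
    induction w with
    | nil => intro st _; simp [ev]
    | cons s w ih =>
      intro st hw
      rw [List.foldl_cons, ih _ (fun t ht => hw t (by simp [ht])), ev_push h2 h4 hT st s (hw s (by simp)), ev_cons,
        mul_assoc]
  have h0 := h w [] hw
  simpa [nf, ev] using h0

/-- the check of one relator -/
def chkRel (iv : ℕ → ℕ) (k m n : ℕ) (r : List ℕ) (tt : ℕ) (w : List ℕ) (s : Src × Bool × List ℕ) : Bool :=
  s.1.ok m n && (s.2.2.all (fun i => Nat.blt i n) && ((s.1.wd iv r tt).all (fun i => Nat.blt i n) &&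
    decide (nf k (invW iv s.2.2 ++ ((bif s.2.1 then invW iv (s.1.wd iv r tt) else s.1.wd iv r tt) ++ s.2.2)) = nf k w)))

theorem World.rel_one {f : ℕ → G} {iv : ℕ → ℕ} {m n : ℕ} {E : Set G} (W : World f iv m n E) (r : List ℕ) (tt k : ℕ)
    (hr : ev f r = 1) (htt : tt < n)
    (hL : ∀ x ∈ E, ∀ e ∈ E, Commute (c2 x ((f tt)⁻¹ * x * f tt)) (e * x * e))
    (h2 : ∀ i < k, f i * f i = 1) (h4 : f k ^ 4 = 1) (hT : f (k + 1) = (f k)⁻¹) (hkn : n ≤ k + 2)
    (w : List ℕ) (hw : ∀ s ∈ w, s < n) (s : Src × Bool × List ℕ) (hs : chkRel iv k m n r tt w s = true) :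
    ev f w = 1 := by
  simp only [chkRel, Bool.and_eq_true, List.all_eq_true, decide_eq_true_eq] at hs
  obtain ⟨h_ok, h_g, h_w, h_nf⟩ := hs
  have hg : ∀ i ∈ s.2.2, i < n := fun i hi => by simpa [Nat.blt_eq] using h_g i hi
  have hww : ∀ i ∈ s.1.wd iv r tt, i < n := fun i hi => by simpa [Nat.blt_eq] using h_w i hi
  have h1 := W.src_one r tt hr htt hL s.1 h_ok
  have hinv : ∀ u : List ℕ, (∀ i ∈ u, i < n) → ∀ i ∈ invW iv u, i < n := by
    intro u hu i hi
    simp only [invW, List.mem_reverse, List.mem_map] at hi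
    obtain ⟨j, hj, rfl⟩ := hi
    exact W.ivlt j (hu j hj)
  have hmid : ev f (bif s.2.1 then invW iv (s.1.wd iv r tt) else s.1.wd iv r tt) = 1 := by
    cases s.2.1 with
    | true =>
      show ev f (invW iv (s.1.wd iv r tt)) = 1
      rw [ev_invW W.inv _ hww, h1, inv_one]
    | false => exact h1
  have hmlt : ∀ i ∈ (bif s.2.1 then invW iv (s.1.wd iv r tt) else s.1.wd iv r tt), i < n := by
    cases s.2.1 with
    | true => exact hinv _ hww
    | false => exact hww
  have h3 := ev_nf h2 h4 hT w (fun t ht => by have := hw t ht; omega)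
  have h5 := ev_nf h2 h4 hT (invW iv s.2.2 ++ ((bif s.2.1 then invW iv (s.1.wd iv r tt) else s.1.wd iv r tt) ++ s.2.2)) (by
    intro t ht
    have : t < n := by
      rcases List.mem_append.1 ht with h | h
      · exact hinv _ hg t h
      · rcases List.mem_append.1 h with h | h
        · exact hmlt t h
        · exact hg t h
    omega)
  rw [h_nf, h3, ev_append, ev_append, hmid, one_mul, ev_invW W.inv _ hg, inv_mul_cancel] at h5
  exact h5

end Pool.Agent.Helper89.SV
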